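import Pool.Agent.Work.MP_c9932b_sb_helper81.FinB

set_option autoImplicit false

open Finset

namespace Pool.SBM.helper81

lemma entry_le_prod {R : Type} [CommRing R] [LinearOrder R] [IsStrictOrderedRing R] {n : ℕ}
    {x : Fin n → R} (hx : ∀ i, 0 ≤ x i) (i : Fin n) : x i + 1 ≤ ∏ j, (x j + 1) := by
  have h1 : ∏ j, (x j + 1) = (x i + 1) * ∏ j ∈ univ.erase i, (x j + 1) :=
    (Finset.mul_prod_erase univ _ (mem_univ i)).symm
  have h2 : 1 ≤ ∏ j ∈ univ.erase i, (x j + 1) := by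
    have h3 : ∏ j ∈ univ.erase i, (1 : R) ≤ ∏ j ∈ univ.erase i, (x j + 1) :=
      Finset.prod_le_prod (fun _ _ => zero_le_one) fun j _ => by linarith [hx j]
    simpa using h3
  rw [h1]
  nlinarith [hx i]

lemma prod_bound {R : Type} [CommRing R] [LinearOrder R] [IsStrictOrderedRing R]
    {C c : ℕ} {t g P : R} (ht : 1 ≤ t) (hC : ((C * 2 ^ c : ℕ) : R) ≤ t) (hg0 : 0 ≤ g) (hg : g ≤ t)
    (hP : P ≤ (C : R) * (g + 1) ^ c) : P ≤ t ^ (c + 1) := by
  calc P ≤ (C : R) * (g + 1) ^ c := hP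
    _ ≤ (C : R) * (2 * t) ^ c := by
        refine mul_le_mul_of_nonneg_left ?_ (Nat.cast_nonneg _)
        exact pow_le_pow_left₀ (by linarith) (by linarith) _
    _ = ((C * 2 ^ c : ℕ) : R) * t ^ c := by rw [mul_pow]; push_cast; ring
    _ ≤ t * t ^ c := mul_le_mul_of_nonneg_right hC (by positivity)
    _ = t ^ (c + 1) := by ring

/-- the conditions for `UNI` at the valuation `valU` -/
lemma valU_cond {R : Type} [CommRing R] [LinearOrder R] [IsStrictOrderedRing R] {s : ℕ}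
    {E : ℕ} (hE : 1 ≤ E) (pm : ℕ → ℕ) {x : Fin (s + 1) → R} (hx : ∀ i, 0 ≤ x i)
    (hX : 0 ≤ (kpx x).1) (hY : 0 ≤ (kpx x).2) {t y b c d : R} (ht : 1 ≤ t)
    (hy0 : 0 ≤ y) (hy1 : y ≤ x 0) (hb0 : 0 ≤ b) (hb1 : b ≤ t) (hc0 : 0 ≤ c) (hc1 : c ≤ t ^ E)
    (hd0 : 0 ≤ d) (hd1 : d ≤ t ^ E) {T0 : ℕ} (hT0 : (T0 : R) ≤ t) :
    (∀ i, 0 ≤ valU E (ev (x20 pm x t)) y b c d i) ∧
    (∀ i < 16, valU E (ev (x20 pm x t)) y b c d i = (pm i : R)) ∧
    (T0 : R) ≤ valU E (ev (x20 pm x t)) y b c d 22 ∧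
    (∀ i, 16 ≤ i → i < 22 → valU E (ev (x20 pm x t)) y b c d i
      ≤ valU E (ev (x20 pm x t)) y b c d 22) ∧
    valU E (ev (x20 pm x t)) y b c d 20 = c ∧ valU E (ev (x20 pm x t)) y b c d 21 = d ∧
    (fun i : Fin 4 => valU E (ev (x20 pm x t)) y b c d (16 + i))
      = ![y, (kpx x).1, (kpx x).2, b] := by
  have e16 : ev (x20 pm x t) 16 = x 0 := by simp [ev, x20]
  have e17 : ev (x20 pm x t) 17 = (kpx x).1 := by simp [ev, x20]
  have e18 : ev (x20 pm x t) 18 = (kpx x).2 := by simp [ev, x20]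
  have e19 : ev (x20 pm x t) 19 = t := by simp [ev, x20]
  have ei : ∀ i < 16, ev (x20 pm x t) i = (pm i : R) := by
    intro i hi
    have h20 : i < 20 := by omega
    simp [ev, x20, h20, hi]
  have htE : t ≤ t ^ E := le_self_pow₀ ht (by omega)
  have h22 : valU E (ev (x20 pm x t)) y b c d 22 = t ^ E + ((kpx x).1 + ((kpx x).2 + x 0)) := by
    simp [valU, e16, e17, e18, e19]
  have hx0 := hx 0
  refine ⟨?_, ?_, ?_, ?_, by simp [valU], by simp [valU], ?_⟩
  · intro i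
    unfold valU
    split_ifs with h1 h2 h3 h4 h5 h6 h7 h8
    · rw [ei i h1]; exact Nat.cast_nonneg _
    · exact hy0
    · rw [e17]; exact hX
    · rw [e18]; exact hY
    · exact hb0
    · exact hc0
    · exact hd0
    · rw [e16, e17, e18, e19]; positivity
    · exact le_refl _
  · intro i hi
    simp only [valU, if_pos hi]
    exact ei i hi
  · rw [h22]; linarith
  · intro i h1 h2
    rw [h22]
    unfold valU
    have h0 : ¬ i < 16 := by omega
    rw [if_neg h0]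
    split_ifs with h3 h4 h5 h6 h7 h8 h9
    · linarith
    · rw [e17]; linarith [pow_nonneg (by linarith : (0 : R) ≤ t) E]
    · rw [e18]; linarith [pow_nonneg (by linarith : (0 : R) ≤ t) E]
    · linarith
    · linarith
    · linarith
    · omega
    · omega
  · funext i
    fin_cases i
    · simp [valU]
    · simp [valU, e17]
    · simp [valU, e18]
    · simp [valU]

theorem stmt_FIN (hEXI : Stmt_EXI) (hPAR : Stmt_PAR) (hUNI : Stmt_UNI) (hPACK : Stmt_PACK)
    (hKSZ : Stmt_KSZ) (hSTD : Stmt_STD) (hDIV : Stmt_DIV) : Stmt_FIN := by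
  classical
  intro cd gn hcd hgn hBMC
  obtain ⟨c, hlow⟩ := hcd.lower
  obtain ⟨e, he⟩ : ∃ e : ℕ, e = c + 1 := ⟨_, rfl⟩
  obtain ⟨E, hE⟩ : ∃ E : ℕ, E = 4 * e + 2 := ⟨_, rfl⟩
  obtain ⟨l0, χ, hχ⟩ := hEXI hBMC (Psi E) 20
  obtain ⟨m0, hm0⟩ := hPAR (Psi E) 20 l0 χ hχ
  obtain ⟨C1, c1, hup⟩ := hcd.upper (l0 + 1)
  obtain ⟨a0, ha0⟩ : ∃ a0 : ℕ, a0 = (e + 2) * m0 := ⟨_, rfl⟩
  refine ⟨(a0 + 2) * c1 + 1 + C1, ?_⟩
  intro s l θ
  obtain ⟨n, φ, T0p, hpack⟩ := hPACK e s l θ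
  obtain ⟨pm, T0u, huni⟩ := hUNI n φ
  obtain ⟨Cs, hCs⟩ := hlow (s + 1)
  obtain ⟨Cl, hCl⟩ := hlow l
  obtain ⟨T0, hT0def⟩ : ∃ T0 : ℕ, T0 = T0p + T0u + (∑ i ∈ range 16, pm i) + Cs * 2 ^ c
    + Cl * 2 ^ c + 2 ^ (s + 1) + l0 + C1 + 22 := ⟨_, rfl⟩
  refine ⟨l0 + 1, Opn.or (Opn.and (.le (Tm.num T0) (.var (s + 1))) (χ.subst (tau s pm)))
    (psi2 s l θ (Cs * (T0 + 1) ^ c) (Cl * (T0 + 1) ^ c)), ?_⟩
  intro R _ _ _ hR
  have hdisc := hR.disc
  have hE1 : 1 ≤ E := by omega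
  -- evaluation of the first disjunct
  have hev1 : ∀ (x : Fin (s + 1) → R) (z' : Fin (l0 + 1) → R),
      (Opn.and (.le (Tm.num T0) (.var (s + 1))) (χ.subst (tau s pm))).eval (cat x z') ↔
        (T0 : R) ≤ z' 0 ∧ χ.eval (cat (x20 pm x (z' 0)) (fun j : Fin l0 => z' j.succ)) := by
    intro x z'
    rw [Opn.eval_and, Opn.eval_le, Opn.eval_subst, tau_eval, Tm.eval_num, Tm.eval_var]
    have : cat x z' (s + 1) = z' 0 := by
      have h := cat_add x z' 0
      simpa [ev] using h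
    rw [this]
  -- consequences of `T0 ≤ t`
  have hcons : ∀ t : R, (T0 : R) ≤ t → (T0p : R) ≤ t ∧ (T0u : R) ≤ t ∧
      (((∑ i ∈ range 16, pm i : ℕ)) : R) ≤ t ∧ ((Cs * 2 ^ c : ℕ) : R) ≤ t ∧
      ((Cl * 2 ^ c : ℕ) : R) ≤ t ∧ ((2 ^ (s + 1) : ℕ) : R) ≤ t ∧ ((l0 + 2 : ℕ) : R) ≤ t ∧
      (C1 : R) ≤ t ∧ (22 : R) ≤ t := by
    intro t ht
    have key : ∀ k : ℕ, k ≤ T0 → (k : R) ≤ t := fun k hk => le_trans (by exact_mod_cast hk) ht
    have h2s : 0 < 2 ^ s := by positivity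
    refine ⟨key _ (by omega), key _ (by omega), key _ (by omega), key _ (by omega),
      key _ (by omega), key _ (by omega), key _ (by omega), key _ (by omega), ?_⟩
    have := key 22 (by omega)
    exact_mod_cast this
  constructor
  · -- (A)
    intro t ht x hx hcx hyp
    have ht2 : (2 : R) ≤ t := le_trans (by exact_mod_cast hgn θ) ht
    by_cases hT : (T0 : R) ≤ t
    · obtain ⟨k1, k2, k3, k4, k5, k6, k7, k8, k9⟩ := hcons t hT
      have ht1 : (1 : R) ≤ t := by linarith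
      have ht0 : (0 : R) ≤ t := by linarith
      have hxp : ∏ i, (x i + 1) ≤ t ^ e := by
        rw [he]
        obtain ⟨g0, g1⟩ := hCs R hR x hx
        exact prod_bound ht1 k4 g0 hcx g1
      obtain ⟨hX0, hY0, hX1, hY1⟩ := hKSZ R (s + 1) x hx
      have hx2 : ∏ i, (x i + 2) ≤ t ^ (e + 1) := by
        calc ∏ i, (x i + 2) ≤ ∏ i, (2 * (x i + 1)) :=
              Finset.prod_le_prod (fun i _ => by linarith [hx i]) fun i _ => by linarith [hx i]
          _ = ((2 ^ (s + 1) : ℕ) : R) * ∏ i, (x i + 1) := by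
              rw [Finset.prod_mul_distrib]; simp
          _ ≤ t * t ^ e := by
              refine mul_le_mul k6 hxp ?_ ht0
              exact Finset.prod_nonneg fun i _ => by linarith [hx i]
          _ = t ^ (e + 1) := by ring
      have hXt := hX1.trans hx2
      have hYt := hY1.trans hx2
      have hx0t : x 0 ≤ t ^ (e + 1) := by
        have h1 := entry_le_prod hx 0
        have h2 : t ^ e ≤ t ^ (e + 1) := pow_le_pow_right₀ ht1 (by omega)
        linarith
      -- Psi holds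
      have hPsi : (Psi E).eval (ev (x20 pm x t)) := by
        rw [Psi_eval]
        have e16 : ev (x20 pm x t) 16 = x 0 := by simp [ev, x20]
        have e19 : ev (x20 pm x t) 19 = t := by simp [ev, x20]
        rw [e16, e19]
        intro y hy0 hy1
        obtain ⟨z, hz0, hzc, hzθ⟩ := hyp y hy0 hy1
        have hzp : ∏ i, (z i + 1) ≤ t ^ e := by
          rw [he]
          obtain ⟨g0, g1⟩ := hCl R hR z hz0
          exact prod_bound ht1 k5 g0 hzc g1
        obtain ⟨b, c', d', hb0, hb1, hc0, hc1, hd0, hd1, a, ha, hφ⟩ :=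
          (hpack R hR).1 t y x z k1 hy0 hx hz0 hxp hzp hzθ
        rw [← hE] at hc1 hd1
        refine ⟨b, hb0, hb1, c', hc0, hc1, d', hd0, hd1, ?_⟩
        obtain ⟨v1, v2, v3, v4, v5, v6, v7⟩ := valU_cond hE1 pm hx hX0 hY0 ht1 hy0 hy1 hb0 hb1
          hc0 hc1 hd0 hd1 k2
        rw [huni R hR _ v1 v2 v3 v4 a (by rw [v5, v6]; exact ha), v7]
        exact hφ
      have hxv : ∀ i, 0 ≤ x20 pm x t i ∧ x20 pm x t i ≤ t ^ (e + 1) := by
        intro i
        have htt : t ≤ t ^ (e + 1) := le_self_pow₀ ht1 (by omega)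
        unfold x20
        split_ifs with h1
        · refine ⟨Nat.cast_nonneg _, le_trans ?_ (k3.trans htt)⟩
          have : pm i.val ≤ ∑ i ∈ range 16, pm i :=
            Finset.single_le_sum (f := pm) (fun _ _ => Nat.zero_le _) (Finset.mem_range.2 h1)
          exact_mod_cast this
        · exact ⟨hx 0, hx0t⟩
        · exact ⟨hX0, hXt⟩
        · exact ⟨hY0, hYt⟩
        · exact ⟨ht0, htt⟩
      obtain ⟨z, hz, hzχ⟩ := (hm0 R hR (x20 pm x t) fun i => (hxv i).1).1 hPsi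
      have hsum : 2 + ∑ j, x20 pm x t j ≤ t ^ (e + 2) := by
        have h1 : ∑ j, x20 pm x t j ≤ ∑ j : Fin 20, t ^ (e + 1) :=
          Finset.sum_le_sum fun j _ => (hxv j).2
        have h2 : ∑ j : Fin 20, t ^ (e + 1) = 20 * t ^ (e + 1) := by simp
        have h3 : (1 : R) ≤ t ^ (e + 1) := one_le_pow₀ ht1
        have h4 : 22 * t ^ (e + 1) ≤ t * t ^ (e + 1) := mul_le_mul_of_nonneg_right k9 (by positivity)
        have h5 : t * t ^ (e + 1) = t ^ (e + 2) := by ring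
        linarith
      have hsum0 : 0 ≤ 2 + ∑ j, x20 pm x t j := by
        have := Finset.sum_nonneg fun j (_ : j ∈ univ) => (hxv j).1
        linarith
      have hzb : ∀ i, z i ≤ t ^ a0 := by
        intro i
        calc z i ≤ (2 + ∑ j, x20 pm x t j) ^ m0 := (hz i).2
          _ ≤ (t ^ (e + 2)) ^ m0 := pow_le_pow_left₀ hsum0 hsum _
          _ = t ^ a0 := by rw [← pow_mul, ha0]
      refine ⟨Fin.cons t z, ?_, ?_, ?_⟩
      · intro i
        refine Fin.cases ?_ (fun j => ?_) i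
        · exact ht0
        · exact (hz j).1
      · have hnn : ∀ i : Fin (l0 + 1), 0 ≤ (Fin.cons t z : Fin (l0 + 1) → R) i := by
          intro i
          refine Fin.cases ?_ (fun j => ?_) i
          · exact ht0
          · exact (hz j).1
        have h1 := hup R hR (Fin.cons t z) hnn
        have h2 : 1 + ∑ i, (Fin.cons t z : Fin (l0 + 1) → R) i ≤ t ^ (a0 + 2) := by
          rw [Fin.sum_univ_succ]
          simp only [Fin.cons_zero, Fin.cons_succ]
          have h3 : ∑ j, z j ≤ ∑ j : Fin l0, t ^ a0 := Finset.sum_le_sum fun j _ => hzb j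
          have h4 : ∑ j : Fin l0, t ^ a0 = (l0 : R) * t ^ a0 := by simp
          have h5 : (1 : R) ≤ t ^ (a0 + 1) := one_le_pow₀ ht1
          have h6 : t ≤ t ^ (a0 + 1) := le_self_pow₀ ht1 (by omega)
          have h7 : t ^ a0 ≤ t ^ (a0 + 1) := pow_le_pow_right₀ ht1 (by omega)
          have h8 : (l0 : R) * t ^ a0 ≤ l0 * t ^ (a0 + 1) :=
            mul_le_mul_of_nonneg_left h7 (Nat.cast_nonneg _)
          have h9 : ((l0 + 2 : ℕ) : R) * t ^ (a0 + 1) ≤ t * t ^ (a0 + 1) :=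
            mul_le_mul_of_nonneg_right k7 (by positivity)
          have h10 : t * t ^ (a0 + 1) = t ^ (a0 + 2) := by ring
          push_cast at h9
          linarith
        have h0 : 0 ≤ 1 + ∑ i, (Fin.cons t z : Fin (l0 + 1) → R) i := by
          have := Finset.sum_nonneg fun i (_ : i ∈ univ) => hnn i
          linarith
        calc cd R (l0 + 1) (Fin.cons t z)
            ≤ (C1 : R) * (1 + ∑ i, (Fin.cons t z : Fin (l0 + 1) → R) i) ^ c1 := h1
          _ ≤ t * (t ^ (a0 + 2)) ^ c1 :=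
              mul_le_mul k8 (pow_le_pow_left₀ h0 h2 _) (pow_nonneg h0 _) ht0
          _ = t ^ ((a0 + 2) * c1 + 1) := by rw [← pow_mul]; ring
          _ ≤ t ^ ((a0 + 2) * c1 + 1 + C1) := pow_le_pow_right₀ ht1 (by omega)
      · rw [Opn.eval_or]
        left
        rw [hev1]
        refine ⟨by simpa using hT, ?_⟩
        simpa using hzχ
    · -- small t
      rw [not_le] at hT
      have ht1 : (1 : R) ≤ t := by linarith
      have hsm : ∀ {N : ℕ} {C : ℕ} {w : Fin N → R} {g : R}, (∀ i, 0 ≤ w i) → 0 ≤ g → g ≤ t →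
          ∏ i, (w i + 1) ≤ (C : R) * (g + 1) ^ c → ∀ i, 0 ≤ w i ∧
            w i ≤ ((C * (T0 + 1) ^ c : ℕ) : R) := by
        intro N C w g hw hg0 hg1 hp i
        refine ⟨hw i, ?_⟩
        have h1 := entry_le_prod hw i
        have h2 : (g + 1) ^ c ≤ ((T0 : R) + 1) ^ c :=
          pow_le_pow_left₀ (by linarith) (by linarith) _
        have h3 : (C : R) * (g + 1) ^ c ≤ C * ((T0 : R) + 1) ^ c :=
          mul_le_mul_of_nonneg_left h2 (Nat.cast_nonneg _)
        push_cast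
        linarith
      have hz0 : cd R (l0 + 1) (fun _ => 0) ≤ t ^ ((a0 + 2) * c1 + 1 + C1) := by
        have h1 := hup R hR (fun _ => 0) (fun _ => le_refl _)
        simp only [Finset.sum_const_zero, add_zero, one_pow, mul_one] at h1
        have h2 : (C1 : R) ≤ 2 ^ C1 := by
          have : C1 ≤ 2 ^ C1 := (Nat.lt_two_pow_self).le
          exact_mod_cast this
        calc cd R (l0 + 1) (fun _ => 0) ≤ (C1 : R) := h1
          _ ≤ 2 ^ C1 := h2
          _ ≤ t ^ C1 := pow_le_pow_left₀ (by norm_num) ht2 _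
          _ ≤ t ^ ((a0 + 2) * c1 + 1 + C1) := pow_le_pow_right₀ ht1 (by omega)
      refine ⟨fun _ => 0, fun _ => le_refl _, hz0, ?_⟩
      rw [Opn.eval_or]
      right
      refine small_A hR hSTD ?_ ?_ _
      · obtain ⟨g0, g1⟩ := hCs R hR x hx
        exact hsm hx g0 hcx g1
      · intro y hy0 hy1
        obtain ⟨z, hz0, hzc, hzθ⟩ := hyp y hy0 hy1
        obtain ⟨g0, g1⟩ := hCl R hR z hz0
        exact ⟨z, hsm hz0 g0 hzc g1, hzθ⟩
  · -- (B)
    rintro x hx ⟨z', hz', hθ'⟩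
    rw [Opn.eval_or] at hθ'
    rcases hθ' with h | h
    · rw [hev1] at h
      obtain ⟨hT, hχ'⟩ := h
      obtain ⟨k1, k2, k3, k4, k5, k6, k7, k8, k9⟩ := hcons (z' 0) hT
      have ht1 : (1 : R) ≤ z' 0 := by linarith
      obtain ⟨hX0, hY0, hX1, hY1⟩ := hKSZ R (s + 1) x hx
      have hxv : ∀ i, 0 ≤ x20 pm x (z' 0) i := by
        intro i
        unfold x20
        split_ifs with h1
        · exact Nat.cast_nonneg _
        · exact hx 0
        · exact hX0
        · exact hY0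
        · linarith
      have hPsi := (hm0 R hR (x20 pm x (z' 0)) hxv).2
        ⟨fun j => z' j.succ, fun j => hz' _, hχ'⟩
      rw [Psi_eval] at hPsi
      have e16 : ev (x20 pm x (z' 0)) 16 = x 0 := by simp [ev, x20]
      have e19 : ev (x20 pm x (z' 0)) 19 = z' 0 := by simp [ev, x20]
      rw [e16, e19] at hPsi
      intro y hy0 hy1
      obtain ⟨b, hb0, hb1, c', hc0, hc1, d', hd0, hd1, hU⟩ := hPsi y hy0 hy1
      choose a ha0 ha using fun j : Fin n => Bt_exists hR hDIV hc0 hd0 (j : ℕ)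
      obtain ⟨v1, v2, v3, v4, v5, v6, v7⟩ := valU_cond hE1 pm hx hX0 hY0 ht1 hy0 hy1 hb0 hb1
        hc0 hc1 hd0 hd1 k2
      rw [huni R hR _ v1 v2 v3 v4 a (by rw [v5, v6]; exact fun j => ⟨ha0 j, ha j⟩), v7] at hU
      exact (hpack R hR).2 y b x a hy0 hb0 hx ha0 hU
    · exact small_B hR hSTD h

end Pool.SBM.helper81
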