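import Pool.Agent.Work.MP_c9932b_sb_helper81.UniC

set_option autoImplicit false

open Finset

namespace Pool.SBM.helper81

lemma size_ineq {R : Type} [CommRing R] [LinearOrder R] [IsStrictOrderedRing R]
    (K nt D Cc : ℕ) (hK : K = nt * (D + 2)) (T g N : R) (hg : 1 ≤ g)
    (hT1 : ((WK K * K.factorial * (Cc * (K + 1) ^ nt) ^ (D + 2) : ℕ) : R) ≤ T) (hT2 : 1 ≤ T)
    (hgT : T < (Cc : R) * (g + K) ^ nt) (hN : |N| ≤ T ^ D) :
    (WK K : R) * (K.factorial : R) * |N| < 3 * 2 ^ K * ∏ i ∈ range (K + 1), (g + (i : R)) := by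
  have hg0 : 0 < g := lt_of_lt_of_le one_pos hg
  set C2 : ℕ := Cc * (K + 1) ^ nt with hC2
  have h1 : T < (C2 : R) * g ^ nt := by
    refine lt_of_lt_of_le hgT ?_
    have h2 : g + K ≤ (K + 1) * g := by
      have : (0 : R) ≤ K := Nat.cast_nonneg _
      nlinarith
    calc (Cc : R) * (g + K) ^ nt ≤ Cc * ((K + 1) * g) ^ nt := by
          refine mul_le_mul_of_nonneg_left ?_ (Nat.cast_nonneg _)
          exact pow_le_pow_left₀ (by positivity) h2 _
      _ = (C2 : R) * g ^ nt := by rw [hC2, mul_pow]; push_cast; ring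
  have hC20 : 0 < C2 := by
    rcases Nat.eq_zero_or_pos C2 with h | h
    · rw [h] at h1; simp at h1; linarith
    · exact h
  have hC2R : (0 : R) < C2 := by exact_mod_cast hC20
  have h3 : T ^ (D + 2) < (C2 : R) ^ (D + 2) * g ^ K := by
    have h4 : T ^ (D + 2) < ((C2 : R) * g ^ nt) ^ (D + 2) :=
      pow_lt_pow_left₀ h1 (by linarith) (by omega)
    calc T ^ (D + 2) < ((C2 : R) * g ^ nt) ^ (D + 2) := h4
      _ = (C2 : R) ^ (D + 2) * g ^ K := by rw [mul_pow, ← pow_mul, hK]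
  have h5 : g ^ K ≤ ∏ i ∈ range (K + 1), (g + (i : R)) := by
    have h6 : ∏ i ∈ range (K + 1), g ≤ ∏ i ∈ range (K + 1), (g + (i : R)) := by
      refine Finset.prod_le_prod (fun _ _ => hg0.le) fun i _ => ?_
      have : (0 : R) ≤ i := Nat.cast_nonneg _
      linarith
    have h7 : g ^ K ≤ g ^ (K + 1) := pow_le_pow_right₀ hg (by omega)
    calc g ^ K ≤ g ^ (K + 1) := h7
      _ = ∏ i ∈ range (K + 1), g := by simp
      _ ≤ _ := h6
  have hWn : 0 < WK K * K.factorial := by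
    have : 0 < WK K := by unfold WK; positivity
    exact Nat.mul_pos this (Nat.factorial_pos K)
  have hWR : (0 : R) < (WK K : R) * (K.factorial : R) := by
    have : (0 : R) < ((WK K * K.factorial : ℕ) : R) := by exact_mod_cast hWn
    simpa using this
  have h8 : (WK K : R) * (K.factorial : R) * T ^ D < g ^ K := by
    have h9 : (C2 : R) ^ (D + 2) * ((WK K : R) * (K.factorial : R) * T ^ D)
        < (C2 : R) ^ (D + 2) * g ^ K := by
      refine lt_of_le_of_lt ?_ h3
      have hTD : 0 ≤ T ^ D := by positivity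
      have h10 : ((WK K : R) * (K.factorial : R)) * (C2 : R) ^ (D + 2) ≤ T := by
        have := hT1
        push_cast at this
        exact this
      have h11 : T ^ (D + 2) = T ^ D * T * T := by ring
      rw [h11]
      have h12 : (C2 : R) ^ (D + 2) * ((WK K : R) * (K.factorial : R) * T ^ D)
          = T ^ D * (((WK K : R) * (K.factorial : R)) * (C2 : R) ^ (D + 2)) := by ring
      rw [h12, mul_assoc (T ^ D) T T]
      refine mul_le_mul_of_nonneg_left ?_ hTD
      nlinarith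
    exact lt_of_mul_lt_mul_left h9 (by positivity)
  have hP0 : 0 < ∏ i ∈ range (K + 1), (g + (i : R)) := lt_of_lt_of_le (by positivity) h5
  calc (WK K : R) * (K.factorial : R) * |N| ≤ (WK K : R) * (K.factorial : R) * T ^ D :=
        mul_le_mul_of_nonneg_left hN hWR.le
    _ < g ^ K := h8
    _ ≤ ∏ i ∈ range (K + 1), (g + (i : R)) := h5
    _ ≤ 3 * 2 ^ K * ∏ i ∈ range (K + 1), (g + (i : R)) := by
        have h13 : (1 : R) ≤ 2 ^ K := one_le_pow₀ (by norm_num)
        nlinarith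

theorem stmt_UNI (hSLP : Stmt_SLP) (hRUN : Stmt_RUN) (hGB : Stmt_GB) (hDIF : Stmt_DIF)
    (hSGN : Stmt_SGN) (hTREE : Stmt_TREE) (hMAX : Stmt_MAX) (hSTD : Stmt_STD)
    (hDIV : Stmt_DIV) : Stmt_UNI := by
  intro n φ
  obtain ⟨pr, I, J, pa, pb, hWF, hidx, hslp⟩ := hSLP n φ
  obtain ⟨D, hrun⟩ := hRUN (6 + n) pr hWF
  set nt : ℕ := 6 + n + pr.length with hnt
  -- instruction table
  obtain ⟨E1, F1, hEF1⟩ := hGB (fun idx => if idx % 3 = 0 then (pr.getD (idx / 3) (0, 0, 0)).1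
    else if idx % 3 = 1 then (pr.getD (idx / 3) (0, 0, 0)).2.1
    else (pr.getD (idx / 3) (0, 0, 0)).2.2) (3 * pr.length)
  have htab1 : ∀ (k : ℕ) (hk : k < pr.length),
        Nat.mod E1 (1 + (3 * k + 1) * F1) = (pr[k]).1 ∧
        Nat.mod E1 (1 + (3 * k + 1 + 1) * F1) = (pr[k]).2.1 ∧
        Nat.mod E1 (1 + (3 * k + 2 + 1) * F1) = (pr[k]).2.2 := by
    intro k hk
    have g0 : pr.getD k (0, 0, 0) = pr[k] := by
      rw [List.getD_eq_getElem?_getD, List.getElem?_eq_getElem hk]; rfl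
    refine ⟨?_, ?_, ?_⟩
    · have := hEF1 (3 * k) (by omega)
      have h1 : 3 * k % 3 = 0 := by omega
      have h2 : 3 * k / 3 = k := by omega
      simp only [h1, h2, if_true, g0] at this
      exact this
    · have := hEF1 (3 * k + 1) (by omega)
      have h1 : (3 * k + 1) % 3 = 1 := by omega
      have h2 : (3 * k + 1) / 3 = k := by omega
      simp only [h1, h2, if_true, g0] at this
      have h3 : E1 % (1 + (3 * k + 1 + 1) * F1) = (pr[k]).2.1 := by simpa using this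
      exact h3
    · have := hEF1 (3 * k + 2) (by omega)
      have h1 : (3 * k + 2) % 3 = 2 := by omega
      have h2 : (3 * k + 2) / 3 = k := by omega
      simp only [h1, h2, g0] at this
      have h3 : E1 % (1 + (3 * k + 2 + 1) * F1) = (pr[k]).2.2 := by simpa using this
      exact h3
  obtain ⟨C, hTR⟩ := hTREE n pr hWF E1 F1 htab1
  obtain ⟨E2, F2, hEF2⟩ := hGB (fun idx => if idx % 2 = 0 then pa (idx / 2) else pb (idx / 2))
    (2 * (I * J) + 2)
  set Cc : ℕ := C + 1 with hCc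
  set K : ℕ := nt * (D + 2) with hK
  obtain ⟨E3, F3, H3, hTp⟩ := exists_tab hGB K (ClsP K)
  obtain ⟨E4, F4, H4, hTm⟩ := exists_tab hGB K (ClsM K)
  refine ⟨fun i => [E1, F1, E2, F2, E3, F3, H3, E4, F4, H4, n, pr.length, K, WK K, I, J].getD i 0,
    WK K * K.factorial * (Cc * (K + 1) ^ nt) ^ (D + 2) + Cc * (1 + K) ^ nt + 2, ?_⟩
  intro R _ _ _ hR v hv hpm hT0 hle a ha
  have hd := hR.disc
  have p0 : v 0 = (E1 : R) := hpm 0 (by omega)
  have p1 : v 1 = (F1 : R) := hpm 1 (by omega)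
  have p2 : v 2 = (E2 : R) := hpm 2 (by omega)
  have p3 : v 3 = (F2 : R) := hpm 3 (by omega)
  have p4 : v 4 = (E3 : R) := hpm 4 (by omega)
  have p5 : v 5 = (F3 : R) := hpm 5 (by omega)
  have p6 : v 6 = (H3 : R) := hpm 6 (by omega)
  have p7 : v 7 = (E4 : R) := hpm 7 (by omega)
  have p8 : v 8 = (F4 : R) := hpm 8 (by omega)
  have p9 : v 9 = (H4 : R) := hpm 9 (by omega)
  have p10 : v 10 = (n : R) := hpm 10 (by omega)
  have p11 : v 11 = (pr.length : R) := hpm 11 (by omega)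
  have p12 : v 12 = (K : R) := hpm 12 (by omega)
  have p13 : v 13 = (WK K : R) := hpm 13 (by omega)
  have p14 : v 14 = (I : R) := hpm 14 (by omega)
  have p15 : v 15 = (J : R) := hpm 15 (by omega)
  set T : R := v 22 with hTdef
  push_cast at hT0
  have hA0 : (0 : R) ≤ ((WK K * K.factorial * (Cc * (K + 1) ^ nt) ^ (D + 2) : ℕ) : R) :=
    Nat.cast_nonneg _
  have hA1 : (0 : R) ≤ ((Cc * (1 + K) ^ nt : ℕ) : R) := Nat.cast_nonneg _
  push_cast at hA0 hA1
  have hT2 : (2 : R) ≤ T := by linarith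
  have hTa : ((WK K * K.factorial * (Cc * (K + 1) ^ nt) ^ (D + 2) : ℕ) : R) ≤ T := by
    push_cast; linarith
  have hTb : (Cc : R) * (1 + K) ^ nt ≤ T := by linarith
  -- the run
  have haT : ∀ j : Fin n, a j ≤ v 20 := by
    intro j
    obtain ⟨ha0, ha1, u, hu0, hu1, hu⟩ := ha j
    have h1 : 0 ≤ u * (1 + (((j : ℕ) : R) + 1) * v 21) := by
      have := hv 21
      positivity
    linarith
  have h20 : v 20 ≤ T := hle 20 (by omega) (by omega)
  let w : ℕ → R := fun k => if k = 0 then 0 else if k = 1 then 1 else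
    cat (fun i : Fin 4 => v (16 + i)) a (k - 2)
  have hcat : ∀ i, 0 ≤ cat (fun i : Fin 4 => v (16 + i)) a i ∧
      cat (fun i : Fin 4 => v (16 + i)) a i ≤ T := by
    intro i
    unfold cat
    split
    · rename_i h
      exact ⟨hv _, hle _ (by simp) (by simp; omega)⟩
    · unfold ev
      split
      · exact ⟨(ha _).1, (haT _).trans h20⟩
      · exact ⟨le_refl _, by linarith⟩
  obtain ⟨V, hVw, hVrun, hVb⟩ := hrun R w T hT2 (by
    intro k hk
    simp only [w]
    split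
    · exact ⟨le_refl _, by linarith⟩
    · split
      · exact ⟨zero_le_one, by linarith⟩
      · exact hcat _)
  have hV0 : V 0 = 0 := by rw [hVw 0 (by omega)]; simp [w]
  have hV1 : V 1 = 1 := by rw [hVw 1 (by omega)]; simp [w]
  have hV2 : ∀ i < 4 + n, V (2 + i) = cat (fun i : Fin 4 => v (16 + i)) a i := by
    intro i hi
    rw [hVw (2 + i) (by omega)]
    have h1 : 2 + i ≠ 0 := by omega
    have h2 : 2 + i ≠ 1 := by omega
    have h3 : 2 + i - 2 = i := by omega
    simp only [w, if_neg h1, if_neg h2, h3]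
  have hVY : ∀ i < 4, V (2 + i) = v (16 + i) := by
    intro i hi
    rw [hV2 i (by omega)]
    simp [cat, hi]
  have hVa : ∀ (j : ℕ) (hj : j < n), V (6 + j) = a ⟨j, hj⟩ := by
    intro j hj
    have h1 := hV2 (4 + j) (by omega)
    have h2 : 2 + (4 + j) = 6 + j := by omega
    rw [h2] at h1
    rw [h1]
    have h3 : ¬ (4 + j < 4) := by omega
    have h4 : 4 + j - 4 = j := by omega
    simp only [cat, dif_neg h3, h4, ev, dif_pos hj]
  have hcat0 : ∀ i, 4 + n ≤ i → cat (fun i : Fin 4 => v (16 + i)) a i = 0 := by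
    intro i hi
    have h1 : ¬ i < 4 := by omega
    have h2 : ¬ (i - 4 < n) := by omega
    simp only [cat, dif_neg h1, ev, dif_neg h2]
  have hVnn : ∀ k < nt, 0 ≤ V k := fun k hk => (hVb k hk).1
  obtain ⟨hT1, hT2'⟩ := hTR R hR v V hv p0 p1 p10 p11 hV0 hV1 hVY (by
    intro j hj
    rw [hVa j hj]
    exact ⟨(ha ⟨j, hj⟩).1, haT _, (ha ⟨j, hj⟩).2⟩) hVrun hVnn
  have hTOK : TreeOK v V nt := hT1
  -- Q0
  have hnt1 : nt ≠ 0 := by omega
  have hCc1 : (1 : R) ≤ Cc := by rw [hCc]; push_cast; have : (0 : R) ≤ C := Nat.cast_nonneg _; linarith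
  have hKn : (0 : R) ≤ K := Nat.cast_nonneg _
  obtain ⟨Q0, hQ00, hQ0, hQ0max⟩ := hMAX R hR
    (.le (.mul (Tm.num Cc) (Tm.pow (.add (.var 0) (Tm.num K)) nt)) (.var 23)) v T hv
    ⟨1, zero_le_one, by
      simp only [D0.eval_le, Tm.eval_mul, Tm.eval_num, Tm.eval_pow, Tm.eval_add, Tm.eval_var,
        push_zero']
      show (Cc : R) * (1 + K) ^ nt ≤ v 22
      exact hTb⟩
    (by
      intro q hq0 hq
      simp only [D0.eval_le, Tm.eval_mul, Tm.eval_num, Tm.eval_pow, Tm.eval_add, Tm.eval_var,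
        push_zero'] at hq
      have hq' : (Cc : R) * (q + K) ^ nt ≤ T := hq
      by_cases hq1 : q ≤ 1
      · linarith
      · rw [not_le] at hq1
        have h1 : q + K ≤ (q + K) ^ nt := le_self_pow₀ (by linarith) hnt1
        nlinarith)
  simp only [D0.eval_le, Tm.eval_mul, Tm.eval_num, Tm.eval_pow, Tm.eval_add, Tm.eval_var,
    push_zero'] at hQ0 hQ0max
  have hQ0T : (Cc : R) * (Q0 + K) ^ nt ≤ T := hQ0
  have hQ0m : ∀ b : R, 0 ≤ b → (Cc : R) * (b + K) ^ nt ≤ T → b ≤ Q0 := hQ0max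
  have hQ1 : 1 ≤ Q0 := hQ0m 1 zero_le_one hTb
  have hQnext : T < (Cc : R) * (Q0 + 1 + K) ^ nt := by
    by_contra hc
    rw [not_lt] at hc
    have := hQ0m (Q0 + 1) (by linarith) hc
    linarith
  have hQT : Q0 ≤ v 22 := by
    have h1 : Q0 + K ≤ (Q0 + K) ^ nt := le_self_pow₀ (by linarith) hnt1
    have h2 : (Q0 + K) ^ nt ≤ (Cc : R) * (Q0 + K) ^ nt := by
      have : 0 ≤ (Q0 + K) ^ nt := by positivity
      nlinarith
    linarith
  have hex : ∀ q : R, 1 ≤ q → q ≤ Q0 → ∀ i ≤ K,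
      ∃ c' d' : R, 0 ≤ c' ∧ c' ≤ v 22 ∧ 0 ≤ d' ∧ d' ≤ v 22 ∧ Tree v (q + i) c' d' := by
    intro q hq1 hq2 i hi
    have hi0 : (0 : R) ≤ i := Nat.cast_nonneg _
    have hiK : (i : R) ≤ K := by exact_mod_cast hi
    obtain ⟨c', d', hc0, hd0, hc1, hd1, htree⟩ := hT2' (q + i) (by linarith)
    have hqi : q + i ≤ Q0 + K := by linarith
    have hC : (C : R) ≤ Cc := by rw [hCc]; push_cast; linarith
    have h1 : (q + (i : R)) ^ nt ≤ (Q0 + K) ^ nt := pow_le_pow_left₀ (by linarith) hqi _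
    have h2 : (C : R) * (q + i) ^ nt ≤ T := by
      refine le_trans ?_ hQ0T
      exact mul_le_mul hC h1 (by positivity) (by positivity)
    have h3 : q + (i : R) ≤ (q + i) ^ nt := le_self_pow₀ (by linarith) hnt1
    refine ⟨c', d', hc0, hc1.trans h2, hd0, hd1.trans (le_trans ?_ h2), htree⟩
    exact mul_le_mul_of_nonneg_left h3 (Nat.cast_nonneg _)
  -- positivity test
  have hpos : ∀ ka kb : ℕ, ka < nt → kb < nt → (PosF v (ka : R) (kb : R) ↔ V kb < V ka) := by
    intro ka kb hka hkb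
    refine pos_iff hSGN hDIF hSTD hDIV hR hv hTOK p12 p13 hVnn p4 p5 p6 p7 p8 p9 hTp hTm hka hkb
      hQ1 hQT hex ?_
    refine size_ineq K nt D Cc hK T (Q0 + 1) (V ka - V kb) (by linarith) hTa (by linarith)
      hQnext ?_
    have h1 := hVb ka hka
    have h2 := hVb kb hkb
    rw [abs_le]
    constructor
    · linarith [h1.1, h2.2]
    · linarith [h1.2, h2.1]
  -- assemble
  rw [hslp R hd (cat (fun i : Fin 4 => v (16 + i)) a) V hV0 hV1 hV2 hcat0 hVrun]
  have htab2 : ∀ i j : ℕ, i < I → j < J →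
      E2 % (1 + (2 * (i * J + j) + 1) * F2) = pa (i * J + j) ∧
      E2 % (1 + (2 * (i * J + j) + 1 + 1) * F2) = pb (i * J + j) := by
    intro i j hi hj
    have hlt : i * J + j < I * J := by
      have : (i + 1) * J ≤ I * J := Nat.mul_le_mul_right _ hi
      nlinarith
    constructor
    · have := hEF2 (2 * (i * J + j)) (by omega)
      have h1 : 2 * (i * J + j) % 2 = 0 := by omega
      have h2 : 2 * (i * J + j) / 2 = i * J + j := by omega
      simp only [h1, h2, if_true] at this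
      exact this
    · have := hEF2 (2 * (i * J + j) + 1) (by omega)
      have h1 : (2 * (i * J + j) + 1) % 2 = 1 := by omega
      have h2 : (2 * (i * J + j) + 1) / 2 = i * J + j := by omega
      simp only [h1, h2] at this
      simpa using this
  constructor
  · rintro ⟨i', hi0, hi1, hi2, hall⟩
    rw [p14] at hi1 hi2
    obtain ⟨i, hi, rfl⟩ := hSTD R hd I i' hi0 hi1
    have hi3 : i < I := by exact_mod_cast hi2
    refine ⟨i, hi3, fun j hj => ?_⟩
    obtain ⟨ka, hka0, _, kb, hkb0, _, ⟨hba, hbb⟩, hP⟩ := hall (j : R) (Nat.cast_nonneg _)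
      (by rw [p15]; exact_mod_cast hj.le) (by rw [p15]; exact_mod_cast hj)
    have ea : ka = ((pa (i * J + j) : ℕ) : R) := by
      have h1 : Bt (E2 : R) (F2 : R) ((2 * (i * J + j) : ℕ) : R) ka := by
        have e : ((2 * (i * J + j) : ℕ) : R) = (1 + 1) * ((i : R) * v 15 + j) := by
          rw [p15]; push_cast; ring
        rw [e, ← p2, ← p3]; exact hba
      rw [Bt_num_iff hd E2 F2 _ hka0 h1, (htab2 i j hi3 hj).1]
    have eb : kb = ((pb (i * J + j) : ℕ) : R) := by
      have h1 : Bt (E2 : R) (F2 : R) ((2 * (i * J + j) + 1 : ℕ) : R) kb := by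
        have e : ((2 * (i * J + j) + 1 : ℕ) : R) = (1 + 1) * ((i : R) * v 15 + j) + 1 := by
          rw [p15]; push_cast; ring
        rw [e, ← p2, ← p3]; exact hbb
      rw [Bt_num_iff hd E2 F2 _ hkb0 h1, (htab2 i j hi3 hj).2]
    rw [ea, eb] at hP
    exact (hpos _ _ (hidx _).1 (hidx _).2).1 hP
  · rintro ⟨i, hi, hall⟩
    refine ⟨(i : R), Nat.cast_nonneg _, by rw [p14]; exact_mod_cast hi.le,
      by rw [p14]; exact_mod_cast hi, ?_⟩
    intro j' hj0 hj1 hj2
    rw [p15] at hj1 hj2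
    obtain ⟨j, hj, rfl⟩ := hSTD R hd J j' hj0 hj1
    have hj3 : j < J := by exact_mod_cast hj2
    obtain ⟨t1, t2⟩ := htab2 i j hi hj3
    have hpaE : pa (i * J + j) ≤ E2 := by rw [← t1]; exact Nat.mod_le _ _
    have hpbE : pb (i * J + j) ≤ E2 := by rw [← t2]; exact Nat.mod_le _ _
    refine ⟨((pa (i * J + j) : ℕ) : R), Nat.cast_nonneg _, by rw [p2]; exact_mod_cast hpaE,
      ((pb (i * J + j) : ℕ) : R), Nat.cast_nonneg _, by rw [p2]; exact_mod_cast hpbE,
      ⟨?_, ?_⟩, (hpos _ _ (hidx _).1 (hidx _).2).2 (hall j hj3)⟩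
    · have e : ((2 * (i * J + j) : ℕ) : R) = (1 + 1) * ((i : R) * v 15 + j) := by
        rw [p15]; push_cast; ring
      rw [← e, p2, p3, ← t1]
      exact Bt_num E2 F2 _
    · have e : ((2 * (i * J + j) + 1 : ℕ) : R) = (1 + 1) * ((i : R) * v 15 + j) + 1 := by
        rw [p15]; push_cast; ring
      rw [← e, p2, p3, ← t2]
      exact Bt_num E2 F2 _

end Pool.SBM.helper81
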