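import Pool.Agent.Work.MP_c9932b_sb_helper81.UniA

set_option autoImplicit false

open Finset

namespace Pool.SBM.helper81

/-- continuants on terms -/
def kpT : List Tm → Tm × Tm
  | [] => (.one, .zero)
  | a :: l => (.add (.mul a (kpT l).1) (kpT l).2, (kpT l).1)

lemma kpT_eval {R : Type} [CommRing R] (v : ℕ → R) (l : List Tm) :
    ((kpT l).1.eval v, (kpT l).2.eval v) = kp (l.map fun t => t.eval v) := by
  induction l with
  | nil => rfl
  | cons a l ih =>
    have h1 : (kpT l).1.eval v = (kp (l.map fun t => t.eval v)).1 := by rw [← ih]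
    have h2 : (kpT l).2.eval v = (kp (l.map fun t => t.eval v)).2 := by rw [← ih]
    simp only [kpT, List.map_cons, kp, Tm.eval_add, Tm.eval_mul, h1, h2]

/-- substitution used in `Psi` -/
def sigU (E : ℕ) : ℕ → Tm := fun i =>
  if i < 16 then .var (i + 4) else if i = 16 then .var 3 else if i = 17 then .var 21
  else if i = 18 then .var 22 else if i = 19 then .var 2 else if i = 20 then .var 1
  else if i = 21 then .var 0
  else if i = 22 then .add (Tm.pow (.var 23) E) (.add (.var 21) (.add (.var 22) (.var 20)))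
  else .zero

/-- `∀ y ≤ x₁ ∃ b ≤ t ∃ c, d ≤ t^E U(params, y, X, Y, b, c, d, T)` with variables
`0..15` params, `16 = x₁`, `17 = X`, `18 = Y`, `19 = t` -/
def Psi (E : ℕ) : D0 :=
  .ball (.var 16) (.bex (.var 20) (.bex (Tm.pow (.var 21) E) (.bex (Tm.pow (.var 22) E)
    (U.subst (sigU E)))))

/-- the valuation of `U` inside `Psi` -/
def valU {R : Type} [CommRing R] (E : ℕ) (v : ℕ → R) (y b c d : R) : ℕ → R := fun i =>
  if i < 16 then v i else if i = 16 then y else if i = 17 then v 17
  else if i = 18 then v 18 else if i = 19 then b else if i = 20 then c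
  else if i = 21 then d
  else if i = 22 then v 19 ^ E + (v 17 + (v 18 + v 16))
  else 0

lemma Psi_eval {R : Type} [CommRing R] [LinearOrder R] (E : ℕ) (v : ℕ → R) :
    (Psi E).eval v ↔ ∀ y : R, 0 ≤ y → y ≤ v 16 → ∃ b : R, 0 ≤ b ∧ b ≤ v 19 ∧
      ∃ c : R, 0 ≤ c ∧ c ≤ v 19 ^ E ∧ ∃ d : R, 0 ≤ d ∧ d ≤ v 19 ^ E ∧
        UnivF (valU E v y b c d) := by
  have key : ∀ y b c d : R,
      (fun i => (sigU E i).eval (push d (push c (push b (push y v))))) = valU E v y b c d := by
    intro y b c d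
    funext i
    unfold sigU valU
    split_ifs <;> simp [push]
  unfold Psi
  simp only [D0.eval_ball, D0.eval_bex, Tm.eval_var, Tm.eval_pow, D0.eval_subst, U_eval, key]
  rfl

/-- open formulas are absolute between `ℤ` and ordered rings -/
lemma Tm_cast {R : Type} [CommRing R] (v : ℕ → ℤ) (t : Tm) :
    t.eval (fun i => ((v i : ℤ) : R)) = ((t.eval v : ℤ) : R) := by
  induction t with
  | var i => rfl
  | zero => simp
  | one => simp
  | add s t hs ht => simp [hs, ht]
  | mul s t hs ht => simp [hs, ht]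

lemma Opn_cast {R : Type} [CommRing R] [LinearOrder R] [IsStrictOrderedRing R] (v : ℕ → ℤ)
    (φ : Opn) : φ.eval (fun i => ((v i : ℤ) : R)) ↔ φ.eval v := by
  induction φ with
  | eq s t => simp [Tm_cast]
  | le s t => simp [Tm_cast]
  | neg φ ih => simp [ih]
  | and φ ψ h1 h2 => simp [h1, h2]

/-- existence of the remainders -/
lemma Bt_exists {R : Type} [CommRing R] [LinearOrder R] [IsStrictOrderedRing R]
    (hR : IDelta0 R) (hDIV : Stmt_DIV) {c d : R} (hc : 0 ≤ c) (hd : 0 ≤ d) (j : ℕ) :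
    ∃ a : R, 0 ≤ a ∧ Bt c d (j : R) a := by
  have hm : 0 < 1 + ((j : R) + 1) * d := by positivity
  obtain ⟨u, a, hu0, hu1, ha0, ha1, h⟩ := hDIV R hR c (1 + ((j : R) + 1) * d) hc hm
  refine ⟨a, ha0, ?_, u, hu0, hu1, by rw [h]; ring⟩
  by_contra hcon
  rw [not_le] at hcon
  have := hR.disc (a - ((j : R) + 1) * d) (by linarith)
  linarith

end Pool.SBM.helper81
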