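import Pool.Agent.Work.MP_c9932b_sb_helper81.FinA

set_option autoImplicit false

open Finset

namespace Pool.SBM.helper81

section small

variable (s l : ℕ) (θ : Opn) (Bx Bz : ℕ)

/-- the valuation by natural numbers in `ℤ` -/
def valZ (y : ℕ) (x : Fin (s + 1) → ℕ) (z : Fin l → ℕ) : ℕ → ℤ :=
  push (y : ℤ) (cat (fun i => (x i : ℤ)) (fun j => (z j : ℤ)))

open Classical in
/-- small tuples at which the left hand side is true -/
noncomputable def smallSet : Finset (Fin (s + 1) → Fin (Bx + 1)) :=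
  Finset.univ.filter fun x => ∀ y : Fin (Bx + 1), (y : ℕ) ≤ (x 0 : ℕ) →
    ∃ z : Fin l → Fin (Bz + 1),
      θ.eval (valZ s l (y : ℕ) (fun i => (x i : ℕ)) (fun j => (z j : ℕ)))

noncomputable def psi2 : Opn :=
  Opn.any ((smallSet s l θ Bx Bz).toList.map fun x =>
    Opn.all (List.ofFn fun i : Fin (s + 1) => Opn.eq (.var i) (Tm.num (x i : ℕ))))

variable {s l θ Bx Bz}

lemma cat_lt {R : Type} [Zero R] {n l' : ℕ} (x : Fin n → R) (z : Fin l' → R) (i : Fin n) :
    cat x z (i : ℕ) = x i := by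
  simp [cat]

lemma cat_add {R : Type} [Zero R] {n l' : ℕ} (x : Fin n → R) (z : Fin l' → R) (j : ℕ) :
    cat x z (n + j) = ev z j := by
  have h : ¬ n + j < n := by omega
  simp [cat]

lemma psi2_eval {R : Type} [CommRing R] [LinearOrder R] {l' : ℕ} (x : Fin (s + 1) → R)
    (z' : Fin l' → R) :
    (psi2 s l θ Bx Bz).eval (cat x z') ↔
      ∃ x0 ∈ smallSet s l θ Bx Bz, ∀ i, x i = (((x0 i : ℕ)) : R) := by
  unfold psi2
  rw [Opn.eval_any]
  constructor
  · rintro ⟨φ, hφ, he⟩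
    obtain ⟨x0, hx0, rfl⟩ := List.mem_map.1 hφ
    refine ⟨x0, Finset.mem_toList.1 hx0, fun i => ?_⟩
    rw [Opn.eval_all] at he
    have := he (Opn.eq (.var i) (Tm.num (x0 i : ℕ))) (List.mem_ofFn.2 ⟨i, rfl⟩)
    simpa [cat_lt] using this
  · rintro ⟨x0, hx0, hx⟩
    refine ⟨_, List.mem_map.2 ⟨x0, Finset.mem_toList.2 hx0, rfl⟩, ?_⟩
    rw [Opn.eval_all]
    intro φ hφ
    obtain ⟨i, rfl⟩ := List.mem_ofFn.1 hφ
    simp [cat_lt, hx i]

lemma valZ_cast {R : Type} [CommRing R] (y : ℕ) (x : Fin (s + 1) → ℕ) (z : Fin l → ℕ) :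
    push ((y : ℕ) : R) (cat (fun i => ((x i : ℕ) : R)) (fun j => ((z j : ℕ) : R)))
      = fun i => ((valZ s l y x z i : ℤ) : R) := by
  funext i
  unfold valZ
  cases i with
  | zero => simp [push]
  | succ i =>
    simp only [push_succ', cat, ev]
    split_ifs <;> simp

lemma small_A {R : Type} [CommRing R] [LinearOrder R] [IsStrictOrderedRing R] (hR : IDelta0 R)
    (hSTD : Stmt_STD) {x : Fin (s + 1) → R} (hx : ∀ i, 0 ≤ x i ∧ x i ≤ (Bx : R))
    (h : ∀ y : R, 0 ≤ y → y ≤ x 0 → ∃ z : Fin l → R, (∀ j, 0 ≤ z j ∧ z j ≤ (Bz : R)) ∧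
      θ.eval (push y (cat x z))) {l' : ℕ} (z' : Fin l' → R) :
    (psi2 s l θ Bx Bz).eval (cat x z') := by
  classical
  rw [psi2_eval]
  have hd := hR.disc
  choose x1 hx1 hx2 using fun i => hSTD R hd Bx (x i) (hx i).1 (hx i).2
  refine ⟨fun i => ⟨x1 i, by have := hx1 i; omega⟩, ?_, fun i => hx2 i⟩
  unfold smallSet
  rw [Finset.mem_filter]
  refine ⟨Finset.mem_univ _, fun y hy => ?_⟩
  simp only at hy
  obtain ⟨z, hz, hθ⟩ := h ((y : ℕ) : R) (Nat.cast_nonneg _) (by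
    rw [hx2 0]; exact_mod_cast hy)
  choose z1 hz1 hz2 using fun j => hSTD R hd Bz (z j) (hz j).1 (hz j).2
  refine ⟨fun j => ⟨z1 j, by have := hz1 j; omega⟩, ?_⟩
  have e1 : x = fun i => ((x1 i : ℕ) : R) := funext hx2
  have e2 : z = fun j => ((z1 j : ℕ) : R) := funext hz2
  rw [e1, e2, valZ_cast, Opn_cast] at hθ
  exact hθ

lemma small_B {R : Type} [CommRing R] [LinearOrder R] [IsStrictOrderedRing R] (hR : IDelta0 R)
    (hSTD : Stmt_STD) {x : Fin (s + 1) → R} {l' : ℕ} {z' : Fin l' → R}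
    (h : (psi2 s l θ Bx Bz).eval (cat x z')) :
    ∀ y : R, 0 ≤ y → y ≤ x 0 → ∃ z : Fin l → R, (∀ j, 0 ≤ z j) ∧ θ.eval (push y (cat x z)) := by
  classical
  rw [psi2_eval] at h
  obtain ⟨x0, hx0, hx⟩ := h
  have hd := hR.disc
  intro y hy0 hy1
  rw [hx 0] at hy1
  obtain ⟨y1, hy2, rfl⟩ := hSTD R hd _ y hy0 hy1
  unfold smallSet at hx0
  rw [Finset.mem_filter] at hx0
  have hlt : y1 < Bx + 1 := lt_of_le_of_lt hy2 (x0 0).2
  obtain ⟨z, hz⟩ := hx0.2 ⟨y1, hlt⟩ hy2
  refine ⟨fun j => ((z j : ℕ) : R), fun j => Nat.cast_nonneg _, ?_⟩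
  have e1 : x = fun i => (((x0 i : ℕ)) : R) := funext hx
  rw [e1, valZ_cast (s := s) (l := l) y1 (fun i => (x0 i : ℕ)) (fun j => (z j : ℕ)), Opn_cast]
  exact hz

end small

section tau

/-- valuation of `Psi` -/
def x20 {R : Type} [CommRing R] {s : ℕ} (pm : ℕ → ℕ) (x : Fin (s + 1) → R) (t : R) :
    Fin 20 → R := fun i =>
  if i.val < 16 then ((pm i.val : ℕ) : R) else if i.val = 16 then x 0
  else if i.val = 17 then (kpx x).1 else if i.val = 18 then (kpx x).2 else t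

/-- substitution of the parameters, of `x₁` and of the continuants -/
def tau (s : ℕ) (pm : ℕ → ℕ) : ℕ → Tm := fun i =>
  if i < 16 then Tm.num (pm i) else if i = 16 then .var 0
  else if i = 17 then (kpT (List.ofFn fun j : Fin (s + 1) => Tm.add (.var j) .one)).1
  else if i = 18 then (kpT (List.ofFn fun j : Fin (s + 1) => Tm.add (.var j) .one)).2
  else .var (s + 1 + (i - 19))

lemma tau_eval {R : Type} [CommRing R] {s l0 : ℕ} (pm : ℕ → ℕ) (x : Fin (s + 1) → R)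
    (z' : Fin (l0 + 1) → R) :
    (fun i => (tau s pm i).eval (cat x z')) = cat (x20 pm x (z' 0)) (fun j : Fin l0 => z' j.succ) := by
  have hk : ((kpT (List.ofFn fun j : Fin (s + 1) => Tm.add (.var j) .one)).1.eval (cat x z'),
      (kpT (List.ofFn fun j : Fin (s + 1) => Tm.add (.var j) .one)).2.eval (cat x z')) = kpx x := by
    rw [kpT_eval]
    unfold kpx
    congr 1
    rw [List.map_ofFn]
    congr 1
    funext j
    simp [cat_lt]
  have hk1 := congrArg Prod.fst hk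
  have hk2 := congrArg Prod.snd hk
  simp only at hk1 hk2
  funext i
  unfold tau
  by_cases h1 : i < 16
  · have h2 : i < 20 := by omega
    simp only [if_pos h1, Tm.eval_num, cat, dif_pos h2, x20]
  rw [if_neg h1]
  by_cases h3 : i = 16
  · subst h3
    simp [cat, x20]
  rw [if_neg h3]
  by_cases h4 : i = 17
  · subst h4
    rw [if_pos rfl, hk1]
    simp [cat, x20]
  rw [if_neg h4]
  by_cases h5 : i = 18
  · subst h5
    rw [if_pos rfl, hk2]
    simp [cat, x20]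
  rw [if_neg h5, Tm.eval_var]
  rw [cat_add]
  by_cases h6 : i = 19
  · subst h6
    simp [cat, x20, ev]
  · obtain ⟨k, rfl⟩ : ∃ k, i = 20 + k := ⟨i - 20, by omega⟩
    have h8 : 20 + k - 19 = k + 1 := by omega
    rw [cat_add, h8]
    unfold ev
    by_cases h10 : k < l0
    · have h11 : k + 1 < l0 + 1 := by omega
      rw [dif_pos h11, dif_pos h10]
      rfl
    · have h11 : ¬ k + 1 < l0 + 1 := by omega
      rw [dif_neg h11, dif_neg h10]

end tau

end Pool.SBM.helper81
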