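import Pool.Agent.Work.MP_c9932b_sb.Interface

set_option autoImplicit false

open Finset

namespace Pool.SBM.helper81

variable {R : Type} [CommRing R] [LinearOrder R] [IsStrictOrderedRing R]

/-- uniqueness of remainders -/
lemma rem_unique (hd : ∀ x : R, 0 < x → 1 ≤ x) {m u u' a a' : R}
    (ha : 0 ≤ a) (ham : a < m) (ha' : 0 ≤ a') (ham' : a' < m) (h : m * u + a = m * u' + a') :
    u = u' ∧ a = a' := by
  have hm : 0 < m := lt_of_le_of_lt ha ham
  have key : u = u' := by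
    rcases lt_trichotomy u u' with h1 | h1 | h1
    · exfalso
      have h2 : 1 ≤ u' - u := hd _ (by linarith)
      nlinarith [mul_le_mul_of_nonneg_left h2 hm.le]
    · exact h1
    · exfalso
      have h2 : 1 ≤ u - u' := hd _ (by linarith)
      nlinarith [mul_le_mul_of_nonneg_left h2 hm.le]
  subst key
  exact ⟨rfl, by linarith⟩

lemma Bt_unique (hd : ∀ x : R, 0 < x → 1 ≤ x) {c d i a b : R}
    (ha : 0 ≤ a) (hb : 0 ≤ b) (h1 : Bt c d i a) (h2 : Bt c d i b) : a = b := by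
  obtain ⟨ha1, u, hu0, hu1, hu⟩ := h1
  obtain ⟨hb1, w, hw0, hw1, hw⟩ := h2
  refine (rem_unique hd (m := 1 + (i + 1) * d) (u := u) (u' := w) ha (by linarith) hb
    (by linarith) ?_).2
  rw [mul_comm _ u, mul_comm _ w, ← hu, ← hw]

lemma Bt_num (E F m : ℕ) : Bt (E : R) (F : R) (m : R) ((E % (1 + (m + 1) * F) : ℕ) : R) := by
  refine ⟨?_, ((E / (1 + (m + 1) * F) : ℕ) : R), Nat.cast_nonneg _, ?_, ?_⟩
  · have h1 : E % (1 + (m + 1) * F) < 1 + (m + 1) * F := Nat.mod_lt _ (by omega)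
    have h2 : E % (1 + (m + 1) * F) ≤ (m + 1) * F := by omega
    calc ((E % (1 + (m + 1) * F) : ℕ) : R) ≤ (((m + 1) * F : ℕ) : R) := by exact_mod_cast h2
      _ = ((m : R) + 1) * F := by push_cast; ring
  · exact_mod_cast Nat.div_le_self _ _
  · have h1 := Nat.div_add_mod' E (1 + (m + 1) * F)
    have h2 : ((E / (1 + (m + 1) * F) * (1 + (m + 1) * F) + E % (1 + (m + 1) * F) : ℕ) : R)
        = (E : R) := by exact_mod_cast h1
    rw [← h2]; push_cast; ring

lemma Bt_num_iff (hd : ∀ x : R, 0 < x → 1 ≤ x) (E F m : ℕ) {a : R} (ha : 0 ≤ a)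
    (h : Bt (E : R) (F : R) (m : R) a) : a = ((E % (1 + (m + 1) * F) : ℕ) : R) :=
  Bt_unique hd ha (Nat.cast_nonneg _) h (Bt_num E F m)

/-- a table of vectors -/
def TabOK (K : ℕ) (Cls : ℤ → Prop) (E F H : ℕ) : Prop :=
  (∀ h < H, ∃ A B : ℕ → ℕ, Cls (SK K A B) ∧
    ∀ i ≤ K, E % (1 + (2 * (h * (K + 1) + i) + 1) * F) = A i ∧
      E % (1 + (2 * (h * (K + 1) + i) + 1 + 1) * F) = B i) ∧
  (∀ A B : ℕ → ℕ, (∀ i ≤ K, A i < WK K ∧ B i < WK K) → Cls (SK K A B) →
    ∃ h < H, ∀ i ≤ K, E % (1 + (2 * (h * (K + 1) + i) + 1) * F) = A i ∧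
      E % (1 + (2 * (h * (K + 1) + i) + 1 + 1) * F) = B i)

lemma SK_congr (K : ℕ) {A B A' B' : ℕ → ℕ} (h : ∀ i ≤ K, A i = A' i ∧ B i = B' i) :
    SK K A B = SK K A' B' := by
  unfold SK
  refine Finset.sum_congr rfl fun i hi => ?_
  have hi' : i ≤ K := by
    have := Finset.mem_range.1 hi
    omega
  rw [(h i hi').1, (h i hi').2]

lemma exists_tab (hGB : Stmt_GB) (K : ℕ) (Cls : ℤ → Prop) : ∃ E F H : ℕ, TabOK K Cls E F H := by
  classical
  set W := WK K with hW
  have hW0 : 0 < W := by rw [hW]; unfold WK; positivity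
  let toA : (Fin (K + 1) → Fin W × Fin W) → ℕ → ℕ := fun g i =>
    if h : i < K + 1 then ((g ⟨i, h⟩).1 : ℕ) else 0
  let toB : (Fin (K + 1) → Fin W × Fin W) → ℕ → ℕ := fun g i =>
    if h : i < K + 1 then ((g ⟨i, h⟩).2 : ℕ) else 0
  let S : Finset (Fin (K + 1) → Fin W × Fin W) :=
    Finset.univ.filter fun g => Cls (SK K (toA g) (toB g))
  let l := S.toList
  let f : ℕ → ℕ := fun idx =>
    if h : (idx / 2) / (K + 1) < l.length then
      (if idx % 2 = 0 then toA (l[(idx / 2) / (K + 1)]) ((idx / 2) % (K + 1))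
        else toB (l[(idx / 2) / (K + 1)]) ((idx / 2) % (K + 1)))
    else 0
  obtain ⟨E, F, hEF⟩ := hGB f (2 * (l.length * (K + 1)) + 2)
  have hA : ∀ (h : ℕ) (hh : h < l.length) (i : ℕ), i ≤ K →
      E % (1 + (2 * (h * (K + 1) + i) + 1) * F) = toA l[h] i ∧
      E % (1 + (2 * (h * (K + 1) + i) + 1 + 1) * F) = toB l[h] i := by
    intro h hh i hi
    have hb : h * (K + 1) + i < l.length * (K + 1) := by
      have : (h + 1) * (K + 1) ≤ l.length * (K + 1) := Nat.mul_le_mul_right _ hh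
      nlinarith
    have hdiv : (h * (K + 1) + i) / (K + 1) = h := by
      rw [mul_comm, Nat.mul_add_div (by omega), Nat.div_eq_of_lt (by omega), add_zero]
    have hmod : (h * (K + 1) + i) % (K + 1) = i := by
      rw [Nat.mul_add_mod', Nat.mod_eq_of_lt (by omega)]
    constructor
    · rw [hEF (2 * (h * (K + 1) + i)) (by omega)]
      have h1 : 2 * (h * (K + 1) + i) / 2 = h * (K + 1) + i := by omega
      have h2 : 2 * (h * (K + 1) + i) % 2 = 0 := by omega
      simp only [f, h1, h2, hdiv, hmod]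
      rw [dif_pos hh]
      simp
    · rw [hEF (2 * (h * (K + 1) + i) + 1) (by omega)]
      have h1 : (2 * (h * (K + 1) + i) + 1) / 2 = h * (K + 1) + i := by omega
      have h2 : (2 * (h * (K + 1) + i) + 1) % 2 = 1 := by omega
      simp only [f, h1, h2, hdiv, hmod]
      rw [dif_pos hh]
      simp
  refine ⟨E, F, l.length, ?_, ?_⟩
  · intro h hh
    refine ⟨toA l[h], toB l[h], ?_, fun i hi => hA h hh i hi⟩
    have hm : l[h] ∈ S := by
      rw [← Finset.mem_toList]; exact List.getElem_mem hh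
    exact (Finset.mem_filter.1 hm).2
  · intro A B hAB hcls
    let g : Fin (K + 1) → Fin W × Fin W := fun i =>
      (⟨A i, (hAB i (by omega)).1⟩, ⟨B i, (hAB i (by omega)).2⟩)
    have hg : ∀ i ≤ K, toA g i = A i ∧ toB g i = B i := by
      intro i hi
      have h1 : i < K + 1 := by omega
      simp only [toA, toB, g, dif_pos h1, and_self]
    have hgS : g ∈ S := by
      refine Finset.mem_filter.2 ⟨Finset.mem_univ _, ?_⟩
      rw [SK_congr K hg]; exact hcls
    obtain ⟨h, hh, hgh⟩ := List.getElem_of_mem (Finset.mem_toList.2 hgS)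
    refine ⟨h, hh, fun i hi => ?_⟩
    have h2 := hA h hh i hi
    have h3 : l[h] = g := hgh
    rw [h3] at h2
    exact ⟨h2.1.trans (hg i hi).1, h2.2.trans (hg i hi).2⟩

end Pool.SBM.helper81
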