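import Pool.Agent.Work.MP_c9932b_sb_helper81.UniA

set_option autoImplicit false

open Finset

namespace Pool.SBM.helper81

variable {R : Type} [CommRing R] [LinearOrder R] [IsStrictOrderedRing R]

/-- every valid tree gives the residues of the run -/
def TreeOK (P V : ℕ → R) (nt : ℕ) : Prop :=
  ∀ q c' d' : R, 1 ≤ q → 0 ≤ c' → 0 ≤ d' → Tree P q c' d' →
    ∀ k < nt, ∃ a u : R, 0 ≤ a ∧ a < q ∧ Bt c' d' (k : R) a ∧ V k = q * u + a

/-- the data of approximate residues -/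
def Approx (K : ℕ) (V : ℕ → R) (ka kb : ℕ) (q : R) (A B : ℕ → ℕ) (r s u w : ℕ → R) : Prop :=
  ∀ i ≤ K, (V ka = (q + i) * u i + r i ∧ V kb = (q + i) * w i + s i ∧
    (A i : R) * (q + i) ≤ WK K * r i ∧ (WK K : R) * r i < (A i + 1) * (q + i) ∧
    (B i : R) * (q + i) ≤ WK K * s i ∧ (WK K : R) * s i < (B i + 1) * (q + i)) ∧
    (0 ≤ r i ∧ r i < q + i ∧ 0 ≤ s i ∧ s i < q + i)

lemma sg_core (hSTD : Stmt_STD) (hd : ∀ x : R, 0 < x → 1 ≤ x) {P V : ℕ → R} {nt K : ℕ}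
    (hT : TreeOK P V nt) (hPK : P 12 = (K : R)) (hPW : P 13 = (WK K : R)) {ka kb : ℕ}
    (hka : ka < nt) (hkb : kb < nt) {Cls : ℤ → Prop} {E F H : ℕ} (hTab : TabOK K Cls E F H)
    {q : R} (hq : 1 ≤ q) (h : SgF P (E : R) (F : R) (H : R) (ka : R) (kb : R) q) :
    ∃ (A B : ℕ → ℕ) (r s u w : ℕ → R), Cls (SK K A B) ∧ Approx K V ka kb q A B r s u w := by
  classical
  obtain ⟨h', hh0, hh1, hh2, hall⟩ := h
  obtain ⟨h0, hh0le, rfl⟩ := hSTD R hd H h' hh0 hh1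
  have hh0lt : h0 < H := by exact_mod_cast hh2
  obtain ⟨A, B, hcls, hAB⟩ := hTab.1 h0 hh0lt
  have key : ∀ i ≤ K, ∃ r s u w : R,
      (V ka = (q + i) * u + r ∧ V kb = (q + i) * w + s ∧
      (A i : R) * (q + i) ≤ WK K * r ∧ (WK K : R) * r < (A i + 1) * (q + i) ∧
      (B i : R) * (q + i) ≤ WK K * s ∧ (WK K : R) * s < (B i + 1) * (q + i)) ∧
      (0 ≤ r ∧ r < q + i ∧ 0 ≤ s ∧ s < q + i) := by
    intro i hi
    obtain ⟨c', hc0, hc1, d', hd0, hd1, htree, A', hA0, hA1, B', hB0, hB1, ⟨hbA, hbB⟩, hfA, hfB⟩ :=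
      hall (i : R) (Nat.cast_nonneg _) (by rw [hPK]; exact_mod_cast hi)
    have hqi : (1 : R) ≤ q + i := by
      have : (0 : R) ≤ i := Nat.cast_nonneg _
      linarith
    have hAe : A' = (A i : R) := by
      have h1 : Bt (E : R) (F : R) ((2 * (h0 * (K + 1) + i) : ℕ) : R) A' := by
        have e : ((2 * (h0 * (K + 1) + i) : ℕ) : R)
            = (1 + 1) * ((h0 : R) * (P 12 + 1) + i) := by
          rw [hPK]; push_cast; ring
        rw [e]; exact hbA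
      rw [Bt_num_iff hd E F _ hA0 h1, (hAB i hi).1]
    have hBe : B' = (B i : R) := by
      have h1 : Bt (E : R) (F : R) ((2 * (h0 * (K + 1) + i) + 1 : ℕ) : R) B' := by
        have e : ((2 * (h0 * (K + 1) + i) + 1 : ℕ) : R)
            = (1 + 1) * ((h0 : R) * (P 12 + 1) + i) + 1 := by
          rw [hPK]; push_cast; ring
        rw [e]; exact hbB
      rw [Bt_num_iff hd E F _ hB0 h1, (hAB i hi).2]
    obtain ⟨r, u, hr0, hr1, hrB, hr⟩ := hT (q + i) c' d' hqi hc0 hd0 htree ka hka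
    obtain ⟨s, w, hs0, hs1, hsB, hs⟩ := hT (q + i) c' d' hqi hc0 hd0 htree kb hkb
    refine ⟨r, s, u, w, ⟨hr, hs, ?_⟩, hr0, hr1, hs0, hs1⟩
    obtain ⟨a, ha0, ha1, haB, haA⟩ := hfA
    obtain ⟨b, hb0, hb1, hbB', hbA'⟩ := hfB
    have e1 : a = r := Bt_unique hd ha0 hr0 haB hrB
    have e2 : b = s := Bt_unique hd hb0 hs0 hbB' hsB
    rw [hPW, e1, hAe] at haA
    rw [hPW, e2, hBe] at hbA'
    exact ⟨haA.1, haA.2, hbA'.1, hbA'.2⟩
  choose! r s u w hrs using key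
  exact ⟨A, B, r, s, u, w, hcls, hrs⟩

/-- uniqueness of the approximate residues -/
lemma approx_unique (hd : ∀ x : R, 0 < x → 1 ≤ x) {K : ℕ} {V : ℕ → R} {ka kb : ℕ} {q : R}
    {A B A' B' : ℕ → ℕ} {r s u w r' s' u' w' : ℕ → R}
    (h1 : Approx K V ka kb q A B r s u w) (h2 : Approx K V ka kb q A' B' r' s' u' w') :
    ∀ i ≤ K, A i = A' i ∧ B i = B' i := by
  intro i hi
  obtain ⟨⟨a1, a2, a3, a4, a5, a6⟩, b1, b2, b3, b4⟩ := h1 i hi
  obtain ⟨⟨c1, c2, c3, c4, c5, c6⟩, d1, d2, d3, d4⟩ := h2 i hi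
  have er : r i = r' i := (rem_unique hd b1 b2 d1 d2 (a1.symm.trans c1)).2
  have es : s i = s' i := (rem_unique hd b3 b4 d3 d4 (a2.symm.trans c2)).2
  have hm : 0 < q + (i : R) := lt_of_le_of_lt b1 b2
  have floor_unique : ∀ {x : R} {M N : ℕ}, (M : R) * (q + i) ≤ x → x < (M + 1) * (q + i) →
      (N : R) * (q + i) ≤ x → x < (N + 1) * (q + i) → M = N := by
    intro x M N h1 h2 h3 h4
    have h5 : (M : R) < N + 1 := by
      have : (M : R) * (q + i) < (N + 1) * (q + i) := lt_of_le_of_lt h1 h4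
      exact lt_of_mul_lt_mul_right this hm.le
    have h6 : (N : R) < M + 1 := by
      have : (N : R) * (q + i) < (M + 1) * (q + i) := lt_of_le_of_lt h3 h2
      exact lt_of_mul_lt_mul_right this hm.le
    have h7 : M < N + 1 := by exact_mod_cast h5
    have h8 : N < M + 1 := by exact_mod_cast h6
    omega
  rw [er] at a3 a4
  rw [es] at a5 a6
  exact ⟨floor_unique a3 a4 c3 c4, floor_unique a5 a6 c5 c6⟩

/-- existence of the approximate residues -/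
lemma approx_exists (hR : IDelta0 R) (hSTD : Stmt_STD) (hDIV : Stmt_DIV) (K : ℕ) (V : ℕ → R)
    {ka kb : ℕ} (hVa : 0 ≤ V ka) (hVb : 0 ≤ V kb) {q : R} (hq : 1 ≤ q) :
    ∃ (A B : ℕ → ℕ) (r s u w : ℕ → R), Approx K V ka kb q A B r s u w ∧
      ∀ i ≤ K, A i < WK K ∧ B i < WK K := by
  classical
  have one : ∀ x : R, 0 ≤ x → ∀ i : ℕ, ∃ (A : ℕ) (r u : R), x = (q + i) * u + r ∧
      (A : R) * (q + i) ≤ WK K * r ∧ (WK K : R) * r < (A + 1) * (q + i) ∧ 0 ≤ r ∧ r < q + i ∧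
      A < WK K := by
    intro x hx i
    have hm : 0 < q + (i : R) := by
      have : (0 : R) ≤ i := Nat.cast_nonneg _
      linarith
    obtain ⟨u, r, _, _, hr0, hr1, hx'⟩ := hDIV R hR x (q + i) hx hm
    have hWr : 0 ≤ (WK K : R) * r := mul_nonneg (Nat.cast_nonneg _) hr0
    obtain ⟨A, ρ, hA0, _, hρ0, hρ1, hA⟩ := hDIV R hR ((WK K : R) * r) (q + i) hWr hm
    have hA1 : A < WK K := by
      by_contra hc
      rw [not_lt] at hc
      have h1 : (WK K : R) * (q + i) ≤ A * (q + i) := mul_le_mul_of_nonneg_right hc hm.le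
      have hW : (0 : R) < WK K := by
        have : 0 < WK K := by unfold WK; positivity
        exact_mod_cast this
      have h2 : (WK K : R) * r < WK K * (q + i) := mul_lt_mul_of_pos_left hr1 hW
      nlinarith
    obtain ⟨A0, hA0le, hA0e⟩ := hSTD R hR.disc (WK K) A hA0 hA1.le
    subst hA0e
    refine ⟨A0, r, u, hx', ?_, ?_, hr0, hr1, by exact_mod_cast hA1⟩
    · rw [hA]; nlinarith
    · rw [hA]; nlinarith
  choose A r u h1 using one (V ka) hVa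
  choose B s w h2 using one (V kb) hVb
  refine ⟨A, B, r, s, u, w, fun i _ => ?_, fun i _ => ⟨(h1 i).2.2.2.2.2, (h2 i).2.2.2.2.2⟩⟩
  obtain ⟨a1, a2, a3, a4, a5, a6⟩ := h1 i
  obtain ⟨b1, b2, b3, b4, b5, b6⟩ := h2 i
  exact ⟨⟨a1, b1, a2, a3, b2, b3⟩, a4, a5, b4, b5⟩

/-- the converse: if all trees exist then `SgF` holds for the vector -/
lemma sg_conv (hd : ∀ x : R, 0 < x → 1 ≤ x) (hSTD : Stmt_STD) {P V : ℕ → R} {nt K : ℕ}
    (hT : TreeOK P V nt) (hPK : P 12 = (K : R)) (hPW : P 13 = (WK K : R)) {ka kb : ℕ}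
    (hka : ka < nt) (hkb : kb < nt) {Cls : ℤ → Prop} {E F H : ℕ} (hTab : TabOK K Cls E F H)
    {q : R} (hq : 1 ≤ q)
    (hex : ∀ i ≤ K, ∃ c' d' : R, 0 ≤ c' ∧ c' ≤ P 22 ∧ 0 ≤ d' ∧ d' ≤ P 22 ∧ Tree P (q + i) c' d')
    {A B : ℕ → ℕ} {r s u w : ℕ → R} (hA : Approx K V ka kb q A B r s u w)
    (hAB : ∀ i ≤ K, A i < WK K ∧ B i < WK K) (hcls : Cls (SK K A B)) :
    SgF P (E : R) (F : R) (H : R) (ka : R) (kb : R) q := by
  obtain ⟨h, hh, htab⟩ := hTab.2 A B hAB hcls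
  refine ⟨(h : R), Nat.cast_nonneg _, by exact_mod_cast hh.le, by exact_mod_cast hh, ?_⟩
  intro i' hi0 hi1
  rw [hPK] at hi1
  obtain ⟨i, hi, rfl⟩ := hSTD R hd K i' hi0 hi1
  obtain ⟨c', d', hc0, hc1, hd0, hd1, htree⟩ := hex i hi
  have hqi : (1 : R) ≤ q + i := by
    have : (0 : R) ≤ i := Nat.cast_nonneg _
    linarith
  obtain ⟨⟨a1, a2, a3, a4, a5, a6⟩, b1, b2, b3, b4⟩ := hA i hi
  obtain ⟨t1, t2⟩ := htab i hi
  obtain ⟨r', u', hr0, hr1, hrB, hr⟩ := hT (q + i) c' d' hqi hc0 hd0 htree ka hka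
  obtain ⟨s', w', hs0, hs1, hsB, hs⟩ := hT (q + i) c' d' hqi hc0 hd0 htree kb hkb
  have er : r i = r' := (rem_unique hd b1 b2 hr0 hr1 (a1.symm.trans hr)).2
  have es : s i = s' := (rem_unique hd b3 b4 hs0 hs1 (a2.symm.trans hs)).2
  have hAE : A i ≤ E := by rw [← t1]; exact Nat.mod_le _ _
  have hBE : B i ≤ E := by rw [← t2]; exact Nat.mod_le _ _
  refine ⟨c', hc0, hc1, d', hd0, hd1, htree, (A i : R), Nat.cast_nonneg _, by exact_mod_cast hAE,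
    (B i : R), Nat.cast_nonneg _, by exact_mod_cast hBE, ⟨?_, ?_⟩, ?_, ?_⟩
  · have e : ((2 * (h * (K + 1) + i) : ℕ) : R) = (1 + 1) * ((h : R) * (P 12 + 1) + i) := by
      rw [hPK]; push_cast; ring
    rw [← e, ← t1]
    exact Bt_num E F _
  · have e : ((2 * (h * (K + 1) + i) + 1 : ℕ) : R)
        = (1 + 1) * ((h : R) * (P 12 + 1) + i) + 1 := by
      rw [hPK]; push_cast; ring
    rw [← e, ← t2]
    exact Bt_num E F _
  · refine ⟨r', hr0, hr1.le, hrB, ?_⟩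
    rw [hPW, ← er]; exact ⟨a3, a4⟩
  · refine ⟨s', hs0, hs1.le, hsB, ?_⟩
    rw [hPW, ← es]; exact ⟨a5, a6⟩

end Pool.SBM.helper81
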