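import Pool.Agent.Work.MP_c9932b_sb_helper81.UniB

set_option autoImplicit false

open Finset

namespace Pool.SBM.helper81

variable {R : Type} [CommRing R] [LinearOrder R] [IsStrictOrderedRing R]

lemma star_of_approx (hDIF : Stmt_DIF) {K : ℕ} {V : ℕ → R} {ka kb : ℕ} {q : R} (hq : 1 ≤ q)
    {A B : ℕ → ℕ} {r s u w : ℕ → R} (h : Approx K V ka kb q A B r s u w) :
    Star K (V ka - V kb) q (SK K A B) :=
  hDIF K (WK K) R q (V ka) (V kb) r s u w A B hq fun i hi => (h i hi).1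

lemma pos_iff (hSGN : Stmt_SGN) (hDIF : Stmt_DIF) (hSTD : Stmt_STD) (hDIV : Stmt_DIV)
    (hR : IDelta0 R) {P V : ℕ → R} (hP : ∀ i, 0 ≤ P i) {nt K : ℕ}
    (hT : TreeOK P V nt) (hPK : P 12 = (K : R)) (hPW : P 13 = (WK K : R))
    (hV : ∀ k < nt, 0 ≤ V k) {E3 F3 H3 E4 F4 H4 : ℕ}
    (h4 : P 4 = (E3 : R)) (h5 : P 5 = (F3 : R)) (h6 : P 6 = (H3 : R))
    (h7 : P 7 = (E4 : R)) (h8 : P 8 = (F4 : R)) (h9 : P 9 = (H4 : R))
    (hTp : TabOK K (ClsP K) E3 F3 H3) (hTm : TabOK K (ClsM K) E4 F4 H4)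
    {ka kb : ℕ} (hka : ka < nt) (hkb : kb < nt) {Q0 : R} (hQ1 : 1 ≤ Q0) (hQT : Q0 ≤ P 22)
    (hex : ∀ q : R, 1 ≤ q → q ≤ Q0 → ∀ i ≤ K,
      ∃ c' d' : R, 0 ≤ c' ∧ c' ≤ P 22 ∧ 0 ≤ d' ∧ d' ≤ P 22 ∧ Tree P (q + i) c' d')
    (hsize : (WK K : R) * (K.factorial : R) * |V ka - V kb|
      < 3 * 2 ^ K * ∏ i ∈ range (K + 1), (Q0 + 1 + (i : R))) :
    PosF P (ka : R) (kb : R) ↔ V kb < V ka := by
  have hd := hR.disc
  let sg : ℕ → D0 := fun m => fSg (fun i => Tm.var (i + 1)) (.var (m + 1)) (.var (m + 2))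
    (.var (m + 3)) (Tm.num ka) (Tm.num kb) (.var 0)
  have hsg : ∀ (m : ℕ) (q : R), (sg m).eval (push q P)
      ↔ SgF P (P m) (P (m + 1)) (P (m + 2)) (ka : R) (kb : R) q := by
    intro m q
    simp only [sg, fSg_eval, Tm.eval_var, push_succ', Tm.eval_num, push_zero']
  have hp : ∀ q : R, (sg 4).eval (push q P) ↔ SgF P (E3 : R) (F3 : R) (H3 : R) (ka : R) (kb : R) q :=
    fun q => by rw [hsg, h4, h5, h6]
  have hm : ∀ q : R, (sg 7).eval (push q P) ↔ SgF P (E4 : R) (F4 : R) (H4 : R) (ka : R) (kb : R) q :=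
    fun q => by rw [hsg, h7, h8, h9]
  have key := hSGN K R hR (sg 4) (sg 7) P (V ka - V kb) (P 22) Q0 hP hQ1 hQT ?_ ?_ ?_ hsize
  · rw [sub_pos] at key
    rw [key]
    unfold PosF
    simp only [hp, hm, h4, h5, h6, h7, h8, h9]
  · intro q hq1 hq2
    obtain ⟨A, B, r, s, u, w, hA, hAB⟩ :=
      approx_exists hR hSTD hDIV K V (hV ka hka) (hV kb hkb) hq1
    refine ⟨SK K A B, star_of_approx hDIF hq1 hA, ?_, ?_⟩
    · rw [hp]
      constructor
      · intro h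
        obtain ⟨A', B', r', s', u', w', hcls, hA'⟩ :=
          sg_core hSTD hd hT hPK hPW hka hkb hTp hq1 h
        rw [SK_congr K (approx_unique hd hA hA')]
        exact hcls
      · intro h
        exact sg_conv hd hSTD hT hPK hPW hka hkb hTp hq1 (hex q hq1 hq2) hA hAB h
    · rw [hm]
      constructor
      · intro h
        obtain ⟨A', B', r', s', u', w', hcls, hA'⟩ :=
          sg_core hSTD hd hT hPK hPW hka hkb hTm hq1 h
        rw [SK_congr K (approx_unique hd hA hA')]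
        exact hcls
      · intro h
        exact sg_conv hd hSTD hT hPK hPW hka hkb hTm hq1 (hex q hq1 hq2) hA hAB h
  · intro q hq1 _ h
    rw [hp] at h
    obtain ⟨A, B, r, s, u, w, hcls, hA⟩ := sg_core hSTD hd hT hPK hPW hka hkb hTp hq1 h
    exact ⟨SK K A B, star_of_approx hDIF hq1 hA, hcls⟩
  · intro q hq1 _ h
    rw [hm] at h
    obtain ⟨A, B, r, s, u, w, hcls, hA⟩ := sg_core hSTD hd hT hPK hPW hka hkb hTm hq1 h
    exact ⟨SK K A B, star_of_approx hDIF hq1 hA, hcls⟩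

end Pool.SBM.helper81
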